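import Pool.Agent.Helper97.Speed.LawDefs
import Pool.Agent.Helper38.Speed.CapHP
import Pool.Agent.Helper66.Speed.WalkLe
import Pool.Agent.Helper35.Speed.Visits

/-! # Task V4 of MP_f07f0f_pr: deterministic part -/

namespace Pool.Agent.Helper97.Speed

open MeasureTheory Filter Topology ENNReal

lemma Net.fgWalk_mono {N N' : Net} (hE : N'.E ⊆ N.E) (hrev : N'.rev = N.rev)
    (horg : N'.org = N.org) {x k y : ℕ} (hw : N'.Walk x k y) : N.Walk x k y := by
  induction hw with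
  | nil x => exact Net.Walk.nil x
  | @cons d n y hd _ ih =>
    rw [horg] at ih ⊢
    rw [hrev] at ih
    exact Net.Walk.cons (hE hd) ih

namespace PMap

variable {m m₁ m₂ : PMap}

/-! ### capacities near an explored region -/

lemma fg_cap (h : m.IsHalfPlane) (hE : m₁.E ⊆ m.E) (hrev : m₁.rev = m.rev)
    (horg : m₁.org = m.org) {j : ℤ} {b n : ℕ} {S : Finset ℕ} (R : Reg m₁ m₂ j b n S)
    (hS : S ≠ ∅) {M N₀ : ℕ} (hM : 0 < M) (hT : (m₂.shift j).Thr M N₀) {d : ℕ}
    (hd : d ∈ m₁.X S) :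
    2 / h.pre.net.cap {m.org d} ≤
      ((8 * (8 * M) ^ 2 * (S.card + N₀ + 1) : ℕ) : ℝ≥0∞) := by
  have hSc : 0 < S.card := Finset.card_pos.2 (Finset.nonempty_iff_ne_empty.2 hS)
  have h1 := cap_root (R.hp₂.shift j) hM hT
  have e1 : (m₂.shift j).V 0 = m₂.V j := by rw [shift_V, zero_add]
  rw [e1] at h1
  have h2 : (R.hp₂.shift j).pre.net.cap {m₂.V j} ≤ h.pre.net.cap {m₂.V j} :=
    Net.cap_mono (N := h.pre.net) (N' := (R.hp₂.shift j).pre.net)
      (fun e he => hE (R.E_subset he)) (R.rev.trans hrev) (R.org.trans horg) _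
  have h3 := h1.trans h2
  obtain ⟨k, hk, hw⟩ := R.walk_le hS hd
  have hw' : h.pre.net.Walk (m.org d) k (m₂.V j) := by
    have := Net.fgWalk_mono (N := h.pre.net) (N' := R.hp.pre.net) hE hrev horg hw
    rwa [horg] at this
  have h4 := h.pre.net.cap_singleton_ge {m₂.V j} ⟨_, Finset.mem_singleton_self _⟩ (m.org d)
    S.card hSc (by
      intro a ha
      rw [Finset.mem_singleton] at ha
      subst ha
      exact ⟨k, hk, hw'⟩)
  set X : ℕ := 8 * (8 * M) ^ 2 * (S.card + N₀ + 1) with hX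
  refine ENNReal.div_le_of_le_mul ?_
  have hM' : (1 : ℝ) ≤ M := by exact_mod_cast hM
  have hN' : (0 : ℝ) ≤ N₀ := Nat.cast_nonneg _
  have hSc' : (1 : ℝ) ≤ S.card := by exact_mod_cast hSc
  have hM2 : (1 : ℝ) ≤ (M : ℝ) ^ 2 := by nlinarith
  have hXr : (X : ℝ) = 8 * (8 * M) ^ 2 * (S.card + N₀ + 1) := by rw [hX]; push_cast; ring
  have hX0 : ((X : ℕ) : ℝ≥0∞) = ENNReal.ofReal (X : ℝ) := by rw [ENNReal.ofReal_natCast]
  have key : (2 : ℝ≥0∞) ≤ X * min (ENNReal.ofReal (1 / (4 * S.card)))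
      (h.pre.net.cap {m₂.V j} / 4) := by
    have two : (2 : ℝ≥0∞) = ENNReal.ofReal 2 := by simp
    rcases min_choice (ENNReal.ofReal (1 / (4 * S.card))) (h.pre.net.cap {m₂.V j} / 4) with hc | hc
    · rw [hc, hX0, two, ← ENNReal.ofReal_mul (by positivity)]
      apply ENNReal.ofReal_le_ofReal
      rw [mul_one_div, le_div_iff₀ (by positivity), hXr]
      nlinarith [mul_nonneg hN' (le_of_lt (lt_of_lt_of_le one_pos hM2)),
        mul_le_mul hM2 hSc' zero_le_one (by positivity)]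
    · rw [hc]
      calc (2 : ℝ≥0∞) ≤ X * (ENNReal.ofReal (1 / ((8 * M) ^ 2 * (N₀ + 1))) / 4) := by
            have four : (4 : ℝ≥0∞) = ENNReal.ofReal 4 := by simp
            rw [four, ← ENNReal.ofReal_div_of_pos (by norm_num), hX0, two,
              ← ENNReal.ofReal_mul (by positivity)]
            apply ENNReal.ofReal_le_ofReal
            rw [div_div, mul_one_div, le_div_iff₀ (by positivity), hXr]
            have : (0:ℝ) ≤ (8 * M) ^ 2 * S.card := by positivity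
            nlinarith
        _ ≤ _ := by gcongr
  refine key.trans ?_
  gcongr

/-! ### the region as a finite set -/

open Classical in
/-- the darts of `m` which are not in `m₂` -/
noncomputable def fgS (m m₂ : PMap) : Finset ℕ :=
  if h : (m.In \ m₂.In).Finite then h.toFinset else ∅

lemma Nest.diff_eq {T : Finset ℕ} (N : Nest m m₂ T) : m.In \ m₂.In = (T : Set ℕ) := by
  rw [N.In, Set.sdiff_sdiff_cancel_left]
  exact fun d hd => (N.tri d hd).1

lemma Nest.fgS_eq {T : Finset ℕ} (N : Nest m m₂ T) : fgS m m₂ = T := by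
  have h1 := N.diff_eq
  have h2 : (m.In \ m₂.In).Finite := by rw [h1]; exact T.finite_toSet
  rw [fgS, dif_pos h2]
  ext d
  rw [Set.Finite.mem_toFinset, h1, Finset.mem_coe]

/-- the darts of `fgS` and their reversals -/
noncomputable def fgX (m m₂ : PMap) : Finset ℕ := fgS m m₂ ∪ (fgS m m₂).image m.rev

lemma fgX_card (m m₂ : PMap) : (fgX m m₂).card ≤ 2 * (fgS m m₂).card := by
  refine (Finset.card_union_le _ _).trans ?_
  have := Finset.card_image_le (s := fgS m m₂) (f := m.rev)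
  omega

lemma Nest.mem_fgX {T : Finset ℕ} (N : Nest m m₂ T) {d : ℕ} : d ∈ fgX m m₂ ↔ d ∈ m.X T := by
  rw [fgX, N.fgS_eq, Finset.mem_union, Finset.mem_image]
  simp only [X, Set.mem_ofPred_eq]
  refine or_congr_right ?_
  constructor
  · rintro ⟨e, he, rfl⟩; rw [N.hp.rev_rev]; exact he
  · intro h; exact ⟨_, h, N.hp.rev_rev d⟩

lemma fg_sum (h : m.IsHalfPlane) (hE : m₁.E ⊆ m.E) (hrev : m₁.rev = m.rev)
    (horg : m₁.org = m.org) {j : ℤ} {b n : ℕ} {S : Finset ℕ} (R : Reg m₁ m₂ j b n S)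
    (hS : S ≠ ∅) {M N₀ : ℕ} (hM : 0 < M) (hT : (m₂.shift j).Thr M N₀) :
    ∑ d ∈ fgX m₁ m₂, 2 / h.pre.net.cap {m.org d} ≤
      ((2 * S.card * (8 * (8 * M) ^ 2 * (S.card + N₀ + 1)) : ℕ) : ℝ≥0∞) := by
  have h1 : ∀ d ∈ fgX m₁ m₂, 2 / h.pre.net.cap {m.org d} ≤
      ((8 * (8 * M) ^ 2 * (S.card + N₀ + 1) : ℕ) : ℝ≥0∞) := fun d hd =>
    fg_cap h hE hrev horg R hS hM hT ((R.nest.mem_fgX).1 hd)
  refine (Finset.sum_le_card_nsmul _ _ _ h1).trans ?_
  rw [nsmul_eq_mul, ← Nat.cast_mul]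
  refine Nat.cast_le.2 ?_
  refine Nat.mul_le_mul_right _ ?_
  have := fgX_card m₁ m₂
  rwa [R.nest.fgS_eq] at this

/-- all capacities are positive -/
lemma fg_cap_ne_zero (h : m.IsHalfPlane) {M N₀ : ℕ} (hM : 0 < M) (hT : m.Thr M N₀) {d : ℕ}
    (hd : d ∈ m.E) : h.pre.net.cap {m.org d} ≠ 0 := by
  have key : ∀ e ∈ m.In, ∀ d, (d = e ∨ m.rev d = e) → h.pre.net.cap {m.org d} ≠ 0 := by
    intro e he d hde
    obtain ⟨k, hk⟩ := exh_exhausts h he
    obtain ⟨j, b, n, T, R, hTn, hj, hb⟩ := exh_reg h k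
    have heT : e ∈ T := by
      by_contra h1
      exact hk (by rw [R.In]; exact ⟨he, h1⟩)
    have hdX : d ∈ m.X T := by
      rcases hde with rfl | hde
      · exact mem_X heT
      · exact Or.inr (hde ▸ heT)
    obtain ⟨l, hl, hw⟩ := R.walk_le hTn hdX
    rw [R.V_le le_rfl] at hw
    have hw2 := capaux_walk_bd h (-j).toNat j
    have e2 : j + ((-j).toNat : ℤ) = 0 := by omega
    rw [e2] at hw2
    have hcomp : ∀ {x y z : ℕ} {k k' : ℕ}, h.pre.net.Walk x k y → h.pre.net.Walk y k' z →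
        ∃ k'', h.pre.net.Walk x k'' z := by
      intro x y z k k' h1 h2
      induction h1 with
      | nil x => exact ⟨_, h2⟩
      | @cons d n y hd _ ih =>
        obtain ⟨k'', h3⟩ := ih h2
        exact ⟨_, Net.Walk.cons hd h3⟩
    obtain ⟨q, hq⟩ := hcomp hw hw2
    have h4 := h.pre.net.cap_singleton_ge {m.V 0} ⟨_, Finset.mem_singleton_self _⟩ (m.org d)
      (q + 1) (by omega) (by
        intro a ha
        rw [Finset.mem_singleton] at ha
        subst ha
        exact ⟨q, by omega, hq⟩)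
    have h1 := cap_root h hM hT
    have hM' : (0 : ℝ) < M := by exact_mod_cast hM
    refine (lt_of_lt_of_le ?_ h4).ne'
    rw [lt_min_iff]
    constructor
    · rw [ENNReal.ofReal_pos]; positivity
    · refine ENNReal.div_pos ?_ (by simp)
      refine (lt_of_lt_of_le ?_ h1).ne'
      rw [ENNReal.ofReal_pos]; positivity
  rcases hd with hd | hd
  · exact key d hd d (Or.inl rfl)
  · exact key _ hd d (Or.inr rfl)

/-! ### the left end of the hull of the root vertex -/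

open Classical in
/-- left end of the hull of the root vertex -/
noncomputable def fgl (m : PMap) : ℤ :=
  if h : ∃ q : ℤ × ℕ × ℕ × Finset ℕ, Reg m (m.explore 0) q.1 q.2.1 q.2.2.1 q.2.2.2 ∧
    q.2.2.2 ≠ ∅ then h.choose.1 else 0

lemma fgl_eq {j : ℤ} {b n : ℕ} {T : Finset ℕ} (R : Reg m (m.explore 0) j b n T) (hT : T ≠ ∅) :
    fgl m = j := by
  have h : ∃ q : ℤ × ℕ × ℕ × Finset ℕ, Reg m (m.explore 0) q.1 q.2.1 q.2.2.1 q.2.2.2 ∧
    q.2.2.2 ≠ ∅ := ⟨(j, b, n, T), R, hT⟩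
  have h1 := h.choose_spec
  have h2 := R.params hT h1.1
  rw [fgl, dif_pos h]
  exact h2.2.1

lemma ExpSpec.ne_empty {l j : ℤ} {b n : ℕ} {T : Finset ℕ} (P : ExpSpec m l m₂ j b n T) :
    T ≠ ∅ := by
  have := P.reg.mem_of_sw (x := m.V l) (e := m.bd l) P.sw rfl
  exact Finset.nonempty_iff_ne_empty.1 ⟨_, this.1 (P.reg.hp.bd_mem l)⟩

lemma SameR_fgl {m g : PMap} (h : m.IsHalfPlane) (hS : SameR (fun m => m.explore 0) m g) :
    fgl g = fgl m ∧ hs g = hs m := by
  obtain ⟨φ, T, T', I⟩ := hS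
  obtain ⟨j, b, n, S, P⟩ := explore_spec h 0
  have hne := P.ne_empty
  obtain ⟨S', RG, I1⟩ := (Stage.first I subset_rfl).iso_left P.reg
  have hS' : S' ≠ ∅ := by
    rw [I1.image_eq]
    obtain ⟨a, ha⟩ := Finset.nonempty_iff_ne_empty.2 hne
    exact Finset.nonempty_iff_ne_empty.1 ⟨φ a, Finset.mem_image.2 ⟨a, ha, rfl⟩⟩
  refine ⟨by rw [fgl_eq RG hS', fgl_eq P.reg hne], ?_⟩
  rw [hs, hs, RG.nest.diff_eq, P.reg.nest.diff_eq, Set.ncard_coe_finset, Set.ncard_coe_finset,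
    I1.image_eq, Finset.card_image_of_injOn]
  intro d hd e he hde
  exact I1.inj d (mem_X hd) e (mem_X he) hde

lemma hs_shift {l j : ℤ} {b n : ℕ} {T : Finset ℕ} (P : ExpSpec m l (m.explore l) j b n T) :
    hs (m.shift l) = T.card ∧
      ((m.shift l).explore 0).shift (fgl (m.shift l)) = (m.explore l).shift j := by
  have e1 : (m.shift l).explore 0 = (m.explore l).shift l := by
    rw [explore_shift P.reg.hp, zero_add]
  have R : Reg (m.shift l) ((m.shift l).explore 0) (j - l) b n T := by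
    rw [e1]; exact P.reg.shift l
  refine ⟨?_, ?_⟩
  · rw [hs, R.nest.diff_eq, Set.ncard_coe_finset]
  · rw [fgl_eq R P.ne_empty, e1, shift_shift]
    congr 1; ring

end PMap

end Pool.Agent.Helper97.Speed
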