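import Pool.Agent.Helper77.Speed.FgDet
import Pool.Agent.Helper97.Speed.Markov
import Pool.Agent.Helper95.Speed.ThrLaw
import Pool.Agent.Helper95.Speed.HullMoment

/-! # Task V4 of MP_f07f0f_pr: linear growth of the number of visits to the boundary -/

namespace Pool.Agent.Helper97.Speed

open MeasureTheory Filter Topology ENNReal PMap

variable {α : ℝ} {P : Measure HalfPlane}

/-! ### pathwise bounds -/

section path

variable {k : ℕ} {w : List ℕ}

lemma fg_nest (hw : w.length ≤ k) (p : HalfPlane × (ℕ → ℕ)) (i : ℕ) :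
    ∃ S, Nest (EE k w p i) (EE k w p (i + 1)) S := by
  rw [EE_succ]
  exact (exploreV_nest (EE_ok hw p i).hp₂ (xx w p i)).1

lemma fg_nest0 (p : HalfPlane × (ℕ → ℕ)) : ∃ S, Nest p.1.1 (p.1.1.exh k) S := by
  obtain ⟨j, b, n, S, R, -⟩ := exh_reg p.1.2 k
  exact ⟨S, R.nest⟩

/-- a dart which is removed is removed at some time -/
lemma fg_removed (p : HalfPlane × (ℕ → ℕ)) {e : ℕ} (he : e ∈ p.1.1.In) :
    ∀ i, e ∉ (EE k w p i).In → (e ∈ p.1.1.In ∧ e ∉ (p.1.1.exh k).In) ∨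
      ∃ i' < i, e ∈ (EE k w p i').In ∧ e ∉ (EE k w p (i' + 1)).In := by
  intro i
  induction i with
  | zero => exact fun h => Or.inl ⟨he, h⟩
  | succ i ih =>
    intro h
    by_cases h1 : e ∈ (EE k w p i).In
    · exact Or.inr ⟨i, Nat.lt_succ_self i, h1, h⟩
    · rcases ih h1 with h2 | ⟨i', hi', h2⟩
      · exact Or.inl h2
      · exact Or.inr ⟨i', by omega, h2⟩

lemma PMap.Nest.fg_mem {m m₂ : PMap} {T : Finset ℕ} (N : Nest m m₂ T) {d e : ℕ} (h1 : e ∈ m.In)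
    (h2 : e ∉ m₂.In) (hde : d = e ∨ m.rev d = e) : d ∈ fgX m m₂ := by
  have heT : e ∈ T := by
    by_contra h3
    exact h2 (by rw [N.In]; exact ⟨h1, h3⟩)
  rw [N.mem_fgX]
  rcases hde with rfl | hde
  · exact mem_X heT
  · exact Or.inr (hde ▸ heT)

/-- the finite set of darts used in the bound -/
noncomputable def fgF (k : ℕ) (w : List ℕ) (p : HalfPlane × (ℕ → ℕ)) (n : ℕ) : Finset ℕ :=
  fgX p.1.1 (p.1.1.exh k) ∪
    (Finset.range n).biUnion (fun i => fgX (EE k w p i) (EE k w p (i + 1)))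

lemma EE_rev (hw : w.length ≤ k) (p : HalfPlane × (ℕ → ℕ)) (i : ℕ) :
    (EE k w p i).rev = p.1.1.rev ∧ (EE k w p i).org = p.1.1.org ∧
      (EE k w p i).E ⊆ p.1.1.E := by
  obtain ⟨j, b, n, S, R, -⟩ := EE_ok hw p i
  exact ⟨R.rev, R.org, R.E_subset⟩

lemma fgF_mem (hw : w.length ≤ k) (p : HalfPlane × (ℕ → ℕ)) (n : ℕ) {i : ℕ} (hi : i < n) {d : ℕ}
    (hd : d ∈ p.1.1.E) (hdx : p.1.1.org d = xx w p i) : d ∈ fgF k w p n := by
  obtain ⟨hsw, j, b, c, S, S₀, R, hS, hX, -⟩ := (EE_ok hw p i).exploreV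
  have h1 := hX d hd hdx
  have key : ∀ e ∈ S, (d = e ∨ p.1.1.rev d = e) → d ∈ fgF k w p n := by
    intro e he hde
    have h2 : e ∈ p.1.1.In := (R.tri e he).1
    have h3 : e ∉ (EE k w p (i + 1)).In := by
      rw [EE_succ]
      intro h4
      rw [xx, R.In] at h4
      exact h4.2 he
    rcases fg_removed p h2 (i + 1) h3 with ⟨h4, h5⟩ | ⟨i', hi', h4, h5⟩
    · obtain ⟨T, N⟩ := fg_nest0 (k := k) p
      exact Finset.mem_union_left _ (N.fg_mem h4 h5 hde)
    · obtain ⟨T, N⟩ := fg_nest hw p i'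
      refine Finset.mem_union_right _ (Finset.mem_biUnion.2 ⟨i', Finset.mem_range.2 (by omega), ?_⟩)
      refine N.fg_mem h4 h5 ?_
      rw [(EE_rev hw p i').1]
      exact hde
  rcases h1 with h1 | h1
  · exact key d h1 (Or.inl rfl)
  · exact key _ h1 (Or.inr rfl)

lemma fg_sum_union (s t : Finset ℕ) (g : ℕ → ℝ≥0∞) :
    ∑ d ∈ s ∪ t, g d ≤ ∑ d ∈ s, g d + ∑ d ∈ t, g d := by
  rw [← Finset.sum_union_inter]
  exact le_self_add

lemma fg_sum_biUnion (n : ℕ) (s : ℕ → Finset ℕ) (g : ℕ → ℝ≥0∞) :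
    ∑ d ∈ (Finset.range n).biUnion s, g d ≤ ∑ i ∈ Finset.range n, ∑ d ∈ s i, g d := by
  induction n with
  | zero => simp
  | succ n ih =>
    rw [Finset.range_add_one, Finset.biUnion_insert, Finset.sum_insert (by simp)]
    exact (fg_sum_union _ _ _).trans (add_le_add le_rfl ih)

lemma fgF_sum (p : HalfPlane × (ℕ → ℕ)) (n : ℕ) (g : ℕ → ℝ≥0∞) :
    ∑ d ∈ fgF k w p n, g d ≤ ∑ d ∈ fgX p.1.1 (p.1.1.exh k), g d +
      ∑ i ∈ Finset.range n, ∑ d ∈ fgX (EE k w p i) (EE k w p (i + 1)), g d :=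
  (fg_sum_union _ _ _).trans (add_le_add le_rfl (fg_sum_biUnion _ _ _))

/-- the cost of a fresh time -/
noncomputable def fgC (M : ℕ) (g : HalfPlane) : ℕ :=
  2 * g.1.hs * (8 * (8 * M) ^ 2 * (g.1.hs + ((g.1.explore 0).shift (fgl g.1)).thr M + 1))

/-- the isoperimetric threshold is attained for all the remaining maps -/
def fgGood (M k : ℕ) (w : List ℕ) (p : HalfPlane × (ℕ → ℕ)) : Prop :=
  ∀ (i : ℕ) (l : ℤ), ((EE k w p i).shift l).Thr M (((EE k w p i).shift l).thr M)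

lemma fg_cost {M : ℕ} (hM : 0 < M) (hw : w.length ≤ k) (p : HalfPlane × (ℕ → ℕ))
    (hg : fgGood M k w p) (i : ℕ) :
    ∑ d ∈ fgX (EE k w p i) (EE k w p (i + 1)), 2 / p.1.2.pre.net.cap {p.1.1.org d} ≤
      ({p | Fresh k w i p}.indicator
        (fun p => ((fgC M ((EH hw i p).shift (ix k w i p)) : ℕ) : ℝ≥0∞)) p) := by
  by_cases hf : Fresh k w i p
  · rw [Set.indicator_of_mem (show p ∈ {p | Fresh k w i p} from hf)]
    set l := ix k w i p with hl
    have hV : (EE k w p i).V l = xx w p i := V_idx hf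
    have hE : EE k w p (i + 1) = (EE k w p i).explore l := by
      rw [EE_succ]
      exact exploreV_of_eq (EE_ok hw p i).hp₂.pre hV
    obtain ⟨j, b, n, S, Q⟩ := explore_spec (EE_ok hw p i).hp₂ l
    obtain ⟨h1, h2⟩ := hs_shift Q
    obtain ⟨e1, e2, e3⟩ := EE_rev hw p i
    have hT := hg (i + 1) j
    rw [hE] at hT
    have h3 := fg_sum p.1.2 e3 e1 e2 Q.reg Q.ne_empty hM hT
    rw [hE]
    refine h3.trans (le_of_eq ?_)
    have e4 : ((EH hw i p).shift l).1 = (EE k w p i).shift l := rfl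
    rw [fgC, e4, h1, h2]
  · rw [Set.indicator_of_notMem (show p ∉ {p | Fresh k w i p} from hf)]
    have hE : EE k w p (i + 1) = EE k w p i := by
      rw [EE_succ]
      exact exploreV_of_ne (fun l hl => hf ⟨l, hl⟩)
    rw [hE]
    have : fgX (EE k w p i) (EE k w p i) = ∅ := by
      ext d
      rw [(Nest.refl (EE_ok hw p i).hp₂).mem_fgX]
      simp [X]
    rw [this, Finset.sum_empty]

end path

/-! ### codes -/

/-- the size of the region of an atom -/
lemma fg_atom (k : ℕ) (C : Cd) : ∃ t : ℕ, ∀ h ∈ atom k C, ∃ b n T,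
    Reg h.1 (h.1.exh k) C.1 b n T ∧ T ≠ ∅ ∧ T.card = t := by
  by_cases hA : (atom k C).Nonempty
  · obtain ⟨h₀, hh₀⟩ := hA
    obtain ⟨j, b, n, T₀, R₀, hT₀, -⟩ := exh_reg h₀.2 k
    refine ⟨T₀.card, ?_⟩
    intro h hh
    obtain ⟨φ, T, T', I, R, R'⟩ := Sub.exists_iso h₀.2 h.2 hh₀ hh
    obtain ⟨rfl, -⟩ := R₀.params hT₀ R
    have e1 : C.1 - ((0 : ℕ) : ℤ) = C.1 := by simp
    rw [e1] at R'
    refine ⟨_, _, T', R', ?_, ?_⟩
    · rw [I.image_eq]
      obtain ⟨a, ha⟩ := Finset.nonempty_iff_ne_empty.2 hT₀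
      exact Finset.nonempty_iff_ne_empty.1 ⟨φ a, Finset.mem_image.2 ⟨a, ha, rfl⟩⟩
    · rw [I.image_eq, Finset.card_image_of_injOn]
      intro d hd e he hde
      exact I.inj d (mem_X hd) e (mem_X he) hde
  · exact ⟨0, fun h hh => absurd ⟨h, hh⟩ hA⟩

/-- isomorphisms of regions can be reversed -/
lemma fg_iso_symm {m m₂ g g₂ : PMap} {φ : ℕ → ℕ} {T T' : Finset ℕ} (I : RIso φ m m₂ g g₂ T T')
    {C : Cd} (hC : m.SubC C m₂) : ∃ ψ S S', RIso ψ g g₂ m m₂ S S' := by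
  have h1 := SubC.transfer I hC
  obtain ⟨ψ, S, S', I', -⟩ := Sub.exists_iso I.n2.hp I.n1.hp h1 hC
  exact ⟨ψ, S, S', I'⟩

lemma fg_past_atom {k : ℕ} {w : List ℕ} (hw : w.length ≤ k) {n : ℕ} (C : Cd)
    {p q : HalfPlane × (ℕ → ℕ)} (h : PastEq k w n p q) : q.1 ∈ atom k C ↔ p.1 ∈ atom k C := by
  obtain ⟨-, φ, T, T', I⟩ := h.mono hw (Nat.zero_le n)
  change RIso φ p.1.1 (p.1.1.exh k) q.1.1 (q.1.1.exh k) T T' at I
  constructor
  · intro hq
    obtain ⟨C', -, hC'⟩ := exists_atom k p.1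
    obtain ⟨ψ, S, S', I'⟩ := fg_iso_symm I hC'
    exact SubC.transfer I' hq
  · intro hp
    exact SubC.transfer I hp

/-! ### measurability and integrability of the cost -/

lemma fg_ix {k : ℕ} {w : List ℕ} (hw : w.length ≤ k) {n : ℕ} {p q : HalfPlane × (ℕ → ℕ)}
    (h : PastEq k w n p q) : ix k w n q = ix k w n p := by
  obtain ⟨φ, hφ⟩ := h.agree hw
  exact (hφ n le_rfl).idx

lemma fg_fresh {k : ℕ} {w : List ℕ} (hw : w.length ≤ k) {n : ℕ} {p q : HalfPlane × (ℕ → ℕ)}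
    (h : PastEq k w n p q) : Fresh k w n q ↔ Fresh k w n p := h.onBd hw le_rfl le_rfl

lemma fg_pastfgl {p q : HalfPlane × (ℕ → ℕ)} (h : PastEq 0 [] 0 p q) :
    fgl q.1.1 = fgl p.1.1 := by
  obtain ⟨-, φ, T, T', I⟩ := h
  exact (SameR_fgl p.1.2 ⟨φ, T, T', I⟩).1

lemma fg_measurable_next {M : ℕ} (hthr : Measurable (fun h : HalfPlane => h.1.thr M)) :
    Measurable (fun g : HalfPlane => ((g.1.explore 0).shift (fgl g.1)).thr M) := by
  have h1 := measurable_EH_shift (k := 0) (w := []) le_rfl 0 (ι := fun p => fgl p.1.1)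
    (fun p q h => fg_pastfgl h)
  have h2 : Measurable (fun g : HalfPlane => (g, (fun _ : ℕ => 0))) :=
    measurable_id.prodMk measurable_const
  exact hthr.comp (h1.comp h2)

lemma fg_measurable_cost {M : ℕ} (hthr : Measurable (fun h : HalfPlane => h.1.thr M))
    (hhs : Measurable (fun h : HalfPlane => h.1.hs)) : Measurable (fgC M) := by
  have h1 := fg_measurable_next hthr
  exact (Measurable.of_discrete (f := fun z : ℕ × ℕ =>
    2 * z.1 * (8 * (8 * M) ^ 2 * (z.1 + z.2 + 1)))).comp (hhs.prodMk h1)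

lemma fg_cost_lt_top (hP : IsHalfPlaneLaw α P) {M : ℕ}
    (hthr : Measurable (fun h : HalfPlane => h.1.thr M))
    (hthr2 : ∫⁻ h : HalfPlane, ((h.1.thr M : ℝ≥0∞) + 1) ^ 2 ∂P < ⊤)
    (hhs : Measurable (fun h : HalfPlane => h.1.hs))
    (hhs2 : ∫⁻ h : HalfPlane, ((h.1.hs : ℝ≥0∞) + 1) ^ 2 ∂P < ⊤) :
    ∫⁻ g, (fgC M g : ℝ≥0∞) ∂P < ⊤ := by
  have hle : ∀ x : ℕ, (x : ℝ≥0∞) ≤ ((x : ℝ≥0∞) + 1) ^ 2 := by
    intro x
    exact_mod_cast (by nlinarith : x ≤ (x + 1) ^ 2)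
  have m1 : Measurable (fun h : HalfPlane => (h.1.hs : ℝ≥0∞)) :=
    (Measurable.of_discrete (f := fun n : ℕ => (n : ℝ≥0∞))).comp hhs
  have m2 : Measurable (fun h : HalfPlane => (h.1.thr M : ℝ≥0∞)) :=
    (Measurable.of_discrete (f := fun n : ℕ => (n : ℝ≥0∞))).comp hthr
  have m3 : Measurable (fun g : HalfPlane =>
      ((((g.1.explore 0).shift (fgl g.1)).thr M : ℕ) : ℝ≥0∞)) :=
    (Measurable.of_discrete (f := fun n : ℕ => (n : ℝ≥0∞))).comp (fg_measurable_next hthr)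
  have h3 := static_markov hP (stopping_explore 0) (φ := fun h => (h.1.hs : ℝ≥0∞))
    (fun h g hS => congrArg (fun x : ℕ => (x : ℝ≥0∞)) (SameR_fgl h.2 hS).2) (ι := fun h => fgl h.1)
    (fun h g hS => (SameR_fgl h.2 hS).1) m2
  have h4 : ∫⁻ h : HalfPlane, (h.1.hs : ℝ≥0∞) ∂P < ⊤ :=
    lt_of_le_of_lt (lintegral_mono fun h => hle _) hhs2
  have h5 : ∫⁻ h : HalfPlane, (h.1.thr M : ℝ≥0∞) ∂P < ⊤ :=
    lt_of_le_of_lt (lintegral_mono fun h => hle _) hthr2
  have h6 : ∀ g : HalfPlane, (fgC M g : ℝ≥0∞) ≤ ((2 * (8 * (8 * M) ^ 2) : ℕ) : ℝ≥0∞) *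
      (((g.1.hs : ℝ≥0∞) + 1) ^ 2 +
        (g.1.hs : ℝ≥0∞) * ((((g.1.explore 0).shift (fgl g.1)).thr M : ℕ) : ℝ≥0∞)) := by
    intro g
    rw [fgC]
    have : ∀ x y c : ℕ, 2 * x * (8 * c * (x + y + 1)) ≤ 2 * (8 * c) * ((x + 1) ^ 2 + x * y) := by
      intro x y c
      have : x * (x + y + 1) ≤ (x + 1) ^ 2 + x * y := by nlinarith
      calc 2 * x * (8 * c * (x + y + 1)) = 2 * (8 * c) * (x * (x + y + 1)) := by ring
        _ ≤ _ := Nat.mul_le_mul_left _ this
    exact_mod_cast this _ _ _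
  have m4 : Measurable (fun g : HalfPlane => ((g.1.hs : ℝ≥0∞) + 1) ^ 2) :=
    (m1.add_const 1).pow_const 2
  have m5 : Measurable (fun g : HalfPlane => ((g.1.hs : ℝ≥0∞) + 1) ^ 2 +
      (g.1.hs : ℝ≥0∞) * ((((g.1.explore 0).shift (fgl g.1)).thr M : ℕ) : ℝ≥0∞)) :=
    m4.add (m1.mul m3)
  refine lt_of_le_of_lt (lintegral_mono h6) ?_
  rw [lintegral_const_mul _ m5, lintegral_add_left m4]
  refine ENNReal.mul_lt_top (ENNReal.natCast_lt_top _) (ENNReal.add_lt_top.2 ⟨hhs2, ?_⟩)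
  have h7 : ∫⁻ g : HalfPlane, (g.1.hs : ℝ≥0∞) *
      ((((g.1.explore 0).shift (fgl g.1)).thr M : ℕ) : ℝ≥0∞) ∂P = _ := h3
  rw [h7]
  exact ENNReal.mul_lt_top h4 h5

/-! ### almost sure properties -/

lemma fg_ae (hP : IsHalfPlaneLaw α P) {k : ℕ} {w : List ℕ} (hw : w.length ≤ k) (n : ℕ) (l : ℤ)
    {B : Set HalfPlane} (hB : P B = 0) : ∀ᵐ p ∂law P w, (EH hw n p).shift l ∉ B := by
  have hms : Measurable ((toMeasurable P B).indicator (fun _ => (1 : ℝ≥0∞))) :=
    measurable_const.indicator (measurableSet_toMeasurable P B)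
  have h1 := strong_markov hP hw n (φ := fun _ => 1) (fun _ _ _ => rfl) (ι := fun _ => l)
    (fun _ _ _ => rfl) hms
  have h2 : ∫⁻ g, (toMeasurable P B).indicator (fun _ => (1 : ℝ≥0∞)) g ∂P = 0 := by
    rw [lintegral_indicator (measurableSet_toMeasurable P B)]
    simp [measure_toMeasurable, hB]
  rw [h2, mul_zero] at h1
  simp only [one_mul] at h1
  have hms' : Measurable (fun p => (toMeasurable P B).indicator (fun _ => (1 : ℝ≥0∞))
      ((EH hw n p).shift l)) :=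
    hms.comp (measurable_EH_shift hw n (ι := fun _ => l) (fun _ _ _ => rfl))
  rw [lintegral_eq_zero_iff hms'] at h1
  filter_upwards [h1] with p hp hpB
  have h3 := subset_toMeasurable P B hpB
  have h4 : (toMeasurable P B).indicator (fun _ => (1 : ℝ≥0∞)) ((EH hw n p).shift l) = 0 := hp
  rw [Set.indicator_of_mem h3] at h4
  exact one_ne_zero h4

theorem fresh_growth (h1 : 2 / 3 < α) (h2 : α < 1) (hP : IsHalfPlaneLaw α P) :
    ∃ c : ℝ≥0∞, c ≠ 0 ∧ ∀ (k : ℕ) (w : List ℕ), w.length ≤ k → ∀ C : Cd,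
      ∃ C₀ : ℝ≥0∞, C₀ ≠ ⊤ ∧ ∀ n : ℕ, c * P (atom k C) * n ≤
        (∑ i ∈ Finset.range n, law P w {p | p.1 ∈ atom k C ∧ Fresh k w i p}) + C₀ := by
  obtain ⟨M, -, -, hM, -, -, -, -, -, hthr, hthra, hthr2⟩ := thr_law h1 h2 hP
  obtain ⟨hhs, hhs2⟩ := hull_moment h1 h2 hP
  have hPP := hP.prob
  set I : ℝ≥0∞ := ∫⁻ g, (fgC M g : ℝ≥0∞) ∂P with hI
  have hItop : I < ⊤ := fg_cost_lt_top hP hthr hthr2 hhs hhs2
  have hIt : ∫⁻ h : HalfPlane, (h.1.thr M : ℝ≥0∞) ∂P < ⊤ := by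
    have hle : ∀ x : ℕ, (x : ℝ≥0∞) ≤ ((x : ℝ≥0∞) + 1) ^ 2 := by
      intro x
      exact_mod_cast (by nlinarith : x ≤ (x + 1) ^ 2)
    exact lt_of_le_of_lt (lintegral_mono fun h => hle _) hthr2
  have m2 : Measurable (fun h : HalfPlane => (h.1.thr M : ℝ≥0∞)) :=
    (Measurable.of_discrete (f := fun n : ℕ => (n : ℝ≥0∞))).comp hthr
  have mC : Measurable (fun g : HalfPlane => (fgC M g : ℝ≥0∞)) :=
    (Measurable.of_discrete (f := fun n : ℕ => (n : ℝ≥0∞))).comp (fg_measurable_cost hthr hhs)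
  refine ⟨(I + 1)⁻¹, ENNReal.inv_ne_zero.2 (ENNReal.add_ne_top.2 ⟨hItop.ne, by simp⟩), ?_⟩
  intro k w hw C
  obtain ⟨t, ht⟩ := fg_atom k C
  set A := atom k C with hA
  have hAm : MeasurableSet A := measurableSet_atom k C
  have hlawA : law P w {p | p.1 ∈ A} = P A := by
    have : {p : HalfPlane × (ℕ → ℕ) | p.1 ∈ A} = A ×ˢ Set.univ := by
      ext p; simp
    rw [law, this, Measure.compProd_apply_prod hAm MeasurableSet.univ]
    simp
  -- the function integrated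
  set c0 : ℕ := 2 * t * (8 * (8 * M) ^ 2) with hc0
  set G0 : HalfPlane × (ℕ → ℕ) → ℝ≥0∞ := fun p =>
    {p : HalfPlane × (ℕ → ℕ) | p.1 ∈ A}.indicator (fun _ => (1 : ℝ≥0∞)) p *
      (((c0 * (t + 1) : ℕ) : ℝ≥0∞) + (c0 : ℝ≥0∞) * (((EH hw 0 p).shift C.1).1.thr M : ℝ≥0∞))
    with hG0
  set Gi : ℕ → HalfPlane × (ℕ → ℕ) → ℝ≥0∞ := fun i p =>
    {p : HalfPlane × (ℕ → ℕ) | p.1 ∈ A ∧ Fresh k w i p}.indicator (fun _ => (1 : ℝ≥0∞)) p *
      (fgC M ((EH hw i p).shift (ix k w i p)) : ℝ≥0∞) with hGi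
  have hmA : MeasurableSet {p : HalfPlane × (ℕ → ℕ) | p.1 ∈ A} := measurable_fst hAm
  have hmAF : ∀ i, MeasurableSet {p : HalfPlane × (ℕ → ℕ) | p.1 ∈ A ∧ Fresh k w i p} := by
    intro i
    refine measurableSet_past hw (n := i) ?_
    rintro p q hpq ⟨h3, h4⟩
    exact ⟨(fg_past_atom hw C hpq).2 h3, (fg_fresh hw hpq).2 h4⟩
  have m6 : Measurable (fun p : HalfPlane × (ℕ → ℕ) =>
      (((EH hw 0 p).shift C.1).1.thr M : ℝ≥0∞)) :=
    m2.comp (measurable_EH_shift hw 0 (ι := fun _ => C.1) (fun _ _ _ => rfl))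
  have hG0m : Measurable G0 :=
    (measurable_const.indicator hmA).mul ((m6.const_mul _).const_add _)
  have hGim : ∀ i, Measurable (Gi i) := by
    intro i
    refine (measurable_const.indicator (hmAF i)).mul ?_
    exact mC.comp (measurable_EH_shift hw i (ι := ix k w i) (fun p q h => fg_ix hw h))
  -- integrals
  have hG0i : ∫⁻ p, G0 p ∂law P w ≤ ((c0 * (t + 1) : ℕ) : ℝ≥0∞) +
      (c0 : ℝ≥0∞) * ∫⁻ h : HalfPlane, (h.1.thr M : ℝ≥0∞) ∂P := by
    have h3 := strong_markov hP hw 0 (φ := fun _ => 1) (fun _ _ _ => rfl) (ι := fun _ => C.1)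
      (fun _ _ _ => rfl) m2
    have h4 : ∀ p, G0 p ≤ ((c0 * (t + 1) : ℕ) : ℝ≥0∞) +
        (c0 : ℝ≥0∞) * (((EH hw 0 p).shift C.1).1.thr M : ℝ≥0∞) := by
      intro p
      simp only [hG0]
      refine (mul_le_mul_left ?_ _).trans (one_mul _).le
      exact Set.indicator_le_self' (fun _ _ => zero_le) p |>.trans le_rfl
    have hlaw1 : law P w Set.univ = 1 := by
      have : IsProbabilityMeasure (law P w) := by unfold law; infer_instance
      exact measure_univ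
    refine (lintegral_mono h4).trans ?_
    rw [lintegral_add_left measurable_const, lintegral_const, hlaw1, mul_one,
      lintegral_const_mul _ m6]
    refine add_le_add le_rfl (mul_le_mul_right ?_ _)
    simp only [one_mul, lintegral_const, hlaw1] at h3
    exact h3.le
  have hGii : ∀ i, ∫⁻ p, Gi i p ∂law P w = law P w {p | p.1 ∈ A ∧ Fresh k w i p} * I := by
    intro i
    have h3 := strong_markov hP hw i
      (φ := {p : HalfPlane × (ℕ → ℕ) | p.1 ∈ A ∧ Fresh k w i p}.indicator (fun _ => (1 : ℝ≥0∞)))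
      (fun p q h => by
        have h4 : q ∈ {p : HalfPlane × (ℕ → ℕ) | p.1 ∈ A ∧ Fresh k w i p} ↔
            p ∈ {p : HalfPlane × (ℕ → ℕ) | p.1 ∈ A ∧ Fresh k w i p} := by
          simp only [Set.mem_ofPred_eq]
          rw [fg_past_atom hw C h, fg_fresh hw h]
        by_cases h5 : p ∈ {p : HalfPlane × (ℕ → ℕ) | p.1 ∈ A ∧ Fresh k w i p}
        · rw [Set.indicator_of_mem h5, Set.indicator_of_mem (h4.2 h5)]
        · rw [Set.indicator_of_notMem h5, Set.indicator_of_notMem (fun h6 => h5 (h4.1 h6))])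
      (ι := ix k w i) (fun p q h => fg_ix hw h) mC
    rw [show ∫⁻ p, Gi i p ∂law P w = _ from h3, lintegral_indicator (hmAF i), lintegral_const,
      Measure.restrict_apply MeasurableSet.univ, Set.univ_inter, one_mul]
  -- the almost sure properties
  have hbad : P {h : HalfPlane | ¬ h.1.Thr M (h.1.thr M)} = 0 := hthra
  have hgood : ∀ᵐ p ∂law P w, fgGood M k w p := by
    have : ∀ᵐ p ∂law P w, ∀ (i : ℕ) (l : ℤ), (EH hw i p).shift l ∉
        {h : HalfPlane | ¬ h.1.Thr M (h.1.thr M)} := by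
      rw [ae_all_iff]; intro i
      rw [ae_all_iff]; intro l
      exact fg_ae hP hw i l hbad
    filter_upwards [this] with p hp i l
    have := hp i l
    simp only [not_not] at this
    exact this
  have hgood' : ∀ᵐ h ∂P, ∀ᵐ a ∂kern w h, fgGood M k w (h, a) :=
    Measure.ae_ae_of_ae_compProd hgood
  refine ⟨((c0 * (t + 1) : ℕ) : ℝ≥0∞) +
      (c0 : ℝ≥0∞) * ∫⁻ h : HalfPlane, (h.1.thr M : ℝ≥0∞) ∂P, ?_, ?_⟩
  · exact ENNReal.add_ne_top.2 ⟨ENNReal.natCast_ne_top _,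
      ENNReal.mul_ne_top (ENNReal.natCast_ne_top _) hIt.ne⟩
  intro n
  set C₀ := ((c0 * (t + 1) : ℕ) : ℝ≥0∞) +
      (c0 : ℝ≥0∞) * ∫⁻ h : HalfPlane, (h.1.thr M : ℝ≥0∞) ∂P with hC₀
  have key : P A * n ≤ C₀ + (∑ i ∈ Finset.range n, law P w {p | p.1 ∈ A ∧ Fresh k w i p}) * I := by
    calc P A * n = ∫⁻ h, A.indicator (fun _ => (n : ℝ≥0∞)) h ∂P := by
          rw [lintegral_indicator hAm, lintegral_const, Measure.restrict_apply MeasurableSet.univ,
            Set.univ_inter, mul_comm]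
      _ ≤ ∫⁻ h, ∫⁻ a, (G0 (h, a) + ∑ i ∈ Finset.range n, Gi i (h, a)) ∂kern w h ∂P := by
          refine lintegral_mono_ae ?_
          filter_upwards [hthra, hgood'] with h hh1 hh2
          by_cases hhA : h ∈ A
          · rw [Set.indicator_of_mem hhA]
            have h3 := visits h.2 (fun d hd => fg_cap_ne_zero h.2 hM hh1 hd) (r0_mem w h) n
              (fun a => fgF k w (h, a) n) (fun a i hi d hd hdx => fgF_mem hw (h, a) n hi hd hdx)
            refine h3.trans ?_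
            refine lintegral_mono_ae ?_
            rw [kern_apply] at hh2
            filter_upwards [hh2] with a ha
            refine (fgF_sum (k := k) (w := w) (h, a) n _).trans (add_le_add ?_ ?_)
            · obtain ⟨b, n', T, R, hT, hTt⟩ := ht h hhA
              have h4 := fg_sum h.2 subset_rfl rfl rfl R hT hM (ha 0 C.1)
              refine h4.trans ?_
              simp only [hG0]
              rw [Set.indicator_of_mem (show (h, a) ∈ {p : HalfPlane × (ℕ → ℕ) | p.1 ∈ A} from hhA),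
                one_mul, hTt]
              have e1 : ((EH hw 0 (h, a)).shift C.1).1 = (EE k w (h, a) 0).shift C.1 := rfl
              rw [e1, hc0]
              push_cast
              apply le_of_eq
              ring
            · refine Finset.sum_le_sum fun i _ => ?_
              refine (fg_cost hM hw (h, a) ha i).trans ?_
              simp only [hGi]
              by_cases hf : Fresh k w i (h, a)
              · rw [Set.indicator_of_mem (show (h, a) ∈ {p | Fresh k w i p} from hf),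
                  Set.indicator_of_mem
                    (show (h, a) ∈ {p : HalfPlane × (ℕ → ℕ) | p.1 ∈ A ∧ Fresh k w i p} from
                      ⟨hhA, hf⟩), one_mul]
              · rw [Set.indicator_of_notMem (show (h, a) ∉ {p | Fresh k w i p} from hf)]
                exact zero_le
          · rw [Set.indicator_of_notMem hhA]
            exact zero_le
      _ = ∫⁻ p, (G0 p + ∑ i ∈ Finset.range n, Gi i p) ∂law P w := by
          have m7 : Measurable (fun p => G0 p + ∑ i ∈ Finset.range n, Gi i p) :=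
            hG0m.add (Finset.measurable_fun_sum _ fun i _ => hGim i)
          rw [law, Measure.lintegral_compProd m7]
      _ = ∫⁻ p, G0 p ∂law P w + ∑ i ∈ Finset.range n, ∫⁻ p, Gi i p ∂law P w := by
          rw [lintegral_add_left hG0m, lintegral_finsetSum _ fun i _ => hGim i]
      _ ≤ C₀ + (∑ i ∈ Finset.range n, law P w {p | p.1 ∈ A ∧ Fresh k w i p}) * I := by
          refine add_le_add hG0i ?_
          rw [Finset.sum_mul]
          exact Finset.sum_le_sum fun i _ => (hGii i).le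
  set Sg := ∑ i ∈ Finset.range n, law P w {p | p.1 ∈ A ∧ Fresh k w i p} with hSg
  have hne0 : I + 1 ≠ 0 := by simp
  have hnet : I + 1 ≠ ⊤ := ENNReal.add_ne_top.2 ⟨hItop.ne, by simp⟩
  rw [mul_assoc, ENNReal.inv_mul_le_iff hne0 hnet]
  refine key.trans ?_
  calc C₀ + Sg * I ≤ (I + 1) * C₀ + (I + 1) * Sg := by
        refine add_le_add ?_ ?_
        · calc C₀ = 1 * C₀ := (one_mul _).symm
            _ ≤ _ := mul_le_mul_left le_add_self _
        · rw [mul_comm]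
          exact mul_le_mul_left le_self_add _
    _ = (I + 1) * (Sg + C₀) := by ring

end Pool.Agent.Helper97.Speed
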